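import Pool.Agent.H92.EQ.TF1

/-!
# Row A16: the pointwise identity behind the homogeneous Stokes formula
-/

set_option autoImplicit false

namespace Pool.Agent.H73.EQ

open scoped BigOperators ComplexConjugate ContDiff ComplexOrder
open MeasureTheory Pool.Agent.H92.EQ

theorem pf_A16 (h1 : T_A1) (h7 : T_A7) (h9 : T_A9) (h10 : T_A10) (h2 : T_A2) : T_A16 := by
  intro ι _ _ p m S H j j' Hf He v x y b c f χ χ1 χ2 l hj hv hKL hKR hH hfL hfR heL heR hb hc
  set E : Matrix ι ι ℂ → Matrix ι ι ℂ → ℂ := fun A B =>
    mixD S (Function.update (Function.update H j A) j' B) with hE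
  have add2 : ∀ A B B', E A (B + B') = E A B + E A B' := fun A B B' =>
    (h1 ι p m S S (Function.update H j A) j' B B' 0).1
  have sm2 : ∀ A B (a : ℂ), E A (a • B) = a * E A B := fun A B a =>
    (h1 ι p m S S (Function.update H j A) j' B B a).2.1
  have cm : ∀ A B, E A B = mixD S (Function.update (Function.update H j' B) j A) := by
    intro A B
    show mixD S (Function.update (Function.update H j A) j' B) = _
    rw [Function.update_comm hj]
  have add1 : ∀ A A' B, E (A + A') B = E A B + E A' B := by
    intro A A' B
    rw [cm, cm, cm]
    exact (h1 ι p m S S (Function.update H j' B) j A A' 0).1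
  have sm1 : ∀ A B (a : ℂ), E (a • A) B = a * E A B := by
    intro A B a
    rw [cm, cm]
    exact (h1 ι p m S S (Function.update H j' B) j A A a).2.1
  -- values of the updated family
  have vj : ∀ A B, Function.update (Function.update H j A) j' B j = A := by
    intro A B
    rw [Function.update_of_ne hj, Function.update_self]
  have vj' : ∀ A B, Function.update (Function.update H j A) j' B j' = B := by
    intro A B
    rw [Function.update_self]
  have vi : ∀ A B i, i ≠ j → i ≠ j' →
      Function.update (Function.update H j A) j' B i = H i := by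
    intro A B i h h'
    rw [Function.update_of_ne h', Function.update_of_ne h]
  -- both slots killed
  have z7 : ∀ A B, MKilL v A → MKilL v B → E A B = 0 := by
    intro A B hA hB
    apply h7 ι p m S _ v hv hKL
    intro i
    by_cases h : i = j
    · rw [h, vj]
      exact hA
    · by_cases h' : i = j'
      · rw [h', vj']
        exact hB
      · rw [vi A B i h h']
        exact (hH i h h').1
  -- the last slot
  have z9 : ∀ A B, MKilL v B → MKilR v B → ∑ a, ∑ b, v a * A a b * conj (v b) = 0 →
      E A B = 0 := by
    intro A B hB hB' hA
    apply h9 ι p m S _ j v hv hKL hKR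
    · intro i h
      by_cases h' : i = j'
      · rw [h', vj']
        exact ⟨hB, hB'⟩
      · rw [vi A B i h h']
        exact hH i h h'
    · rw [vj]
      exact hA
  have z10l : ∀ y1 y2, E (out x y1) (out x y2) = 0 := by
    intro y1 y2
    exact (h10 ι p m S (Function.update (Function.update H j (out x y1)) j' (out x y2)) j j'
      x y1 y2 hj).1 (vj _ _) (vj' _ _)
  have z10r : ∀ y1 y2, E (out y1 y) (out y2 y) = 0 := by
    intro y1 y2
    exact (h10 ι p m S (Function.update (Function.update H j (out y1 y)) j' (out y2 y)) j j'
      y y1 y2 hj).2 (vj _ _) (vj' _ _)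
  have hout : ∀ u w : ι → ℂ, ∑ a, ∑ b, v a * out u w a b * conj (v b) =
      (∑ a, v a * u a) * ∑ b, conj (v b) * w b := by
    intro u w
    rw [Finset.sum_mul_sum]
    refine Finset.sum_congr rfl fun a _ => Finset.sum_congr rfl fun b _ => ?_
    unfold out
    ring
  have zxc : E (out x c) He = 0 := z9 _ _ heL heR (by rw [hout, hc, mul_zero])
  have zby : E (out b y) He = 0 := z9 _ _ heL heR (by rw [hout, hb, zero_mul])
  -- symmetry
  have hsym : E (out x y) He = E He (out x y) := by
    have h3 := h2 ι p m S (Function.update (Function.update H j He) j' (out x y))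
      (Equiv.swap j j')
    rw [show E He (out x y) = mixD S (Function.update (Function.update H j He) j' (out x y))
      from rfl, ← h3]
    show mixD S (Function.update (Function.update H j (out x y)) j' He) = _
    apply congrArg (mixD S)
    funext i
    by_cases h : i = j
    · rw [h, vj, Equiv.swap_apply_left, vj']
    · by_cases h' : i = j'
      · rw [h', vj', Equiv.swap_apply_right, vj]
      · rw [vi _ _ i h h', Equiv.swap_apply_of_ne_of_ne h h', vi _ _ i h h']
  show E (χ • Hf + (f * χ1) • He + (f * χ2) • out x y + χ1 • (out x c + out b y))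
    (l • He + out x y) = χ * E Hf (out x y) + f * (χ1 + l * χ2) * E He (out x y)
  simp only [add1, add2, sm1, sm2, z7 Hf He hfL heL, z7 He He heL heL, z10l, z10r, zxc, zby,
    hsym, mul_zero, zero_add, add_zero]
  ring

end Pool.Agent.H73.EQ
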