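import Pool.Agent.H92.EQ.TF2

/-!
# Row D3: the exterior product with the complex Hessian of a function is closed
-/

set_option autoImplicit false

namespace Pool.Agent.H73.EQ

open scoped BigOperators ComplexConjugate ContDiff ComplexOrder Topology
open MeasureTheory Pool.Agent.H92.EQ

/-! ### Combinatorics -/

section comb

variable {ι : Type} {n : ℕ}

/-- the exchange of the order in which two entries are removed -/
theorem swap_sum (Ψ : Fin (n + 2) → Fin (n + 2) → (Fin n → ι) → ℂ) (I : Fin (n + 2) → ι) :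
    ∑ j : Fin (n + 2), ∑ a : Fin (n + 1), (-1 : ℂ) ^ ((j : ℕ) + (a : ℕ)) *
      Ψ j (j.succAbove a) ((I ∘ j.succAbove) ∘ a.succAbove) =
    -∑ j : Fin (n + 2), ∑ a : Fin (n + 1), (-1 : ℂ) ^ ((j : ℕ) + (a : ℕ)) *
      Ψ (j.succAbove a) j ((I ∘ j.succAbove) ∘ a.succAbove) := by
  let τ : Fin (n + 2) × Fin (n + 1) → Fin (n + 2) × Fin (n + 1) := fun x =>
    (x.1.succAbove x.2, x.2.predAbove x.1)
  have hτ : Function.Involutive τ := by
    rintro ⟨j, a⟩
    exact Prod.ext (Fin.succAbove_succAbove_predAbove j a)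
      (Fin.predAbove_predAbove_succAbove j a)
  rw [← Fintype.sum_prod_type', ← Fintype.sum_prod_type', ← Finset.sum_neg_distrib,
    ← Equiv.sum_comp hτ.toPerm]
  refine Finset.sum_congr rfl fun x _ => ?_
  obtain ⟨j, a⟩ := x
  show (-1 : ℂ) ^ (((j.succAbove a : Fin (n + 2)) : ℕ) + ((a.predAbove j : Fin (n + 1)) : ℕ)) *
      Ψ (j.succAbove a) ((j.succAbove a).succAbove (a.predAbove j))
        ((I ∘ (j.succAbove a).succAbove) ∘ (a.predAbove j).succAbove) = _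
  have h1 : (I ∘ (j.succAbove a).succAbove) ∘ (a.predAbove j).succAbove =
      (I ∘ j.succAbove) ∘ a.succAbove := by
    funext k
    exact congrArg I (Fin.succAbove_succAbove_succAbove_predAbove j a k)
  rw [Fin.neg_one_pow_succAbove_add_predAbove, Fin.succAbove_succAbove_predAbove, h1, neg_mul]

theorem sym_zero (A : ι → ι → (Fin n → ι) → ℂ) (hA : ∀ x y R, A x y R = A y x R)
    (I : Fin (n + 2) → ι) :
    ∑ j : Fin (n + 2), ∑ a : Fin (n + 1), (-1 : ℂ) ^ ((j : ℕ) + (a : ℕ)) *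
      A (I j) (I (j.succAbove a)) ((I ∘ j.succAbove) ∘ a.succAbove) = 0 := by
  have h1 := swap_sum (fun j k R => A (I j) (I k) R) I
  have h2 : ∑ j : Fin (n + 2), ∑ a : Fin (n + 1), (-1 : ℂ) ^ ((j : ℕ) + (a : ℕ)) *
      A (I (j.succAbove a)) (I j) ((I ∘ j.succAbove) ∘ a.succAbove) =
      ∑ j : Fin (n + 2), ∑ a : Fin (n + 1), (-1 : ℂ) ^ ((j : ℕ) + (a : ℕ)) *
      A (I j) (I (j.succAbove a)) ((I ∘ j.succAbove) ∘ a.succAbove) :=
    Finset.sum_congr rfl fun j _ => Finset.sum_congr rfl fun a _ => by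
      rw [hA (I (j.succAbove a)) (I j)]
  rw [h2] at h1
  have h3 := self_eq_neg.1 h1
  exact h3

theorem closed_zero (h : ι → ℂ) (W : ι → (Fin n → ι) → ℂ)
    (hW : ∀ K : Fin (n + 1) → ι, ∑ a : Fin (n + 1), (-1 : ℂ) ^ (a : ℕ) *
      W (K a) (K ∘ a.succAbove) = 0) (I : Fin (n + 2) → ι) :
    ∑ j : Fin (n + 2), ∑ a : Fin (n + 1), (-1 : ℂ) ^ ((j : ℕ) + (a : ℕ)) *
      (h (I (j.succAbove a)) * W (I j) ((I ∘ j.succAbove) ∘ a.succAbove)) = 0 := by
  rw [swap_sum (fun j k R => h (I k) * W (I j) R) I, neg_eq_zero]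
  apply Finset.sum_eq_zero
  intro j _
  have h1 : ∑ a : Fin (n + 1), (-1 : ℂ) ^ ((j : ℕ) + (a : ℕ)) *
      (h (I j) * W (I (j.succAbove a)) ((I ∘ j.succAbove) ∘ a.succAbove)) =
      (-1) ^ (j : ℕ) * h (I j) * ∑ a : Fin (n + 1), (-1 : ℂ) ^ (a : ℕ) *
        W ((I ∘ j.succAbove) a) ((I ∘ j.succAbove) ∘ a.succAbove) := by
    rw [Finset.mul_sum]
    refine Finset.sum_congr rfl fun a _ => ?_
    rw [pow_add]
    show _ = _ * (_ * W (I (j.succAbove a)) _)
    ring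
  rw [h1, hW, mul_zero]

open Equiv in
theorem perm_split (π : Perm (Fin (n + 1))) (a : Fin (n + 1)) : ∃ π' : Perm (Fin n),
    (∀ j, π (a.succAbove j) = (π a).succAbove (π' j)) ∧
    (-1 : ℂ) ^ (a : ℕ) * ((Perm.sign π' : ℤ) : ℂ) =
      ((Perm.sign π : ℤ) : ℂ) * (-1) ^ ((π a : Fin (n + 1)) : ℕ) := by
  set ρ : Perm (Fin (n + 1)) := (Fin.cycleRange (π a)) * π * (Fin.cycleRange a)⁻¹ with hρ
  have h0 : ρ 0 = 0 := by
    rw [hρ, Perm.mul_apply, Perm.mul_apply]
    have h1 : (Fin.cycleRange a)⁻¹ 0 = a := by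
      rw [Perm.inv_eq_iff_eq, Fin.cycleRange_self]
    rw [h1, Fin.cycleRange_self]
  obtain ⟨⟨p, π'⟩, hp⟩ := Perm.decomposeFin.symm.surjective ρ
  have hp0 : p = 0 := by
    rw [← h0, ← hp, Perm.decomposeFin_symm_apply_zero]
  subst hp0
  refine ⟨π', fun j => ?_, ?_⟩
  · apply (Fin.cycleRange (π a)).injective
    rw [Fin.cycleRange_succAbove]
    have h1 : ρ j.succ = (π' j).succ := by
      rw [← hp, Perm.decomposeFin_symm_apply_succ, swap_self]
      rfl
    rw [← h1, hρ, Perm.mul_apply, Perm.mul_apply]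
    have h2 : (Fin.cycleRange a)⁻¹ j.succ = a.succAbove j := by
      rw [Perm.inv_eq_iff_eq, Fin.cycleRange_succAbove]
    rw [h2]
  · have h1 : Perm.sign ρ = Perm.sign π' := by
      rw [← hp, Perm.decomposeFin.symm_sign, if_pos rfl, one_mul]
    rw [hρ, Perm.sign_mul, Perm.sign_mul, Perm.sign_inv, Fin.sign_cycleRange,
      Fin.sign_cycleRange] at h1
    rw [← h1]
    push_cast
    have h2 : (-1 : ℂ) ^ (a : ℕ) * (-1) ^ (a : ℕ) = 1 := by
      rw [← pow_add]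
      exact Even.neg_one_pow ⟨_, rfl⟩
    calc (-1 : ℂ) ^ (a : ℕ) * ((-1) ^ ((π a : Fin (n + 1)) : ℕ) * ((Perm.sign π : ℤ) : ℂ) *
        (-1) ^ (a : ℕ)) = ((-1 : ℂ) ^ (a : ℕ) * (-1) ^ (a : ℕ)) *
          (((Perm.sign π : ℤ) : ℂ) * (-1) ^ ((π a : Fin (n + 1)) : ℕ)) := by ring
      _ = _ := by rw [h2, one_mul]

theorem alt_sum (g : ι → (Fin n → ι) → ℂ)
    (hg : ∀ x (π' : Equiv.Perm (Fin n)) R, g x (R ∘ π') =
      ((Equiv.Perm.sign π' : ℤ) : ℂ) * g x R) (I : Fin (n + 1) → ι)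
    (π : Equiv.Perm (Fin (n + 1))) :
    ∑ a : Fin (n + 1), (-1 : ℂ) ^ (a : ℕ) * g ((I ∘ π) a) ((I ∘ π) ∘ a.succAbove) =
    ((Equiv.Perm.sign π : ℤ) : ℂ) *
      ∑ a : Fin (n + 1), (-1 : ℂ) ^ (a : ℕ) * g (I a) (I ∘ a.succAbove) := by
  rw [← Equiv.sum_comp π (fun a : Fin (n + 1) => (-1 : ℂ) ^ (a : ℕ) *
    g (I a) (I ∘ a.succAbove)), Finset.mul_sum]
  refine Finset.sum_congr rfl fun a _ => ?_
  obtain ⟨π', h1, h2⟩ := perm_split π a
  have h3 : (I ∘ π) ∘ a.succAbove = (I ∘ (π a).succAbove) ∘ π' := by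
    funext j
    exact congrArg I (h1 j)
  rw [h3, hg, ← mul_assoc, h2, mul_assoc]
  rfl

end comb

/-! ### Derivatives -/

section deriv

variable {ι : Type} [Fintype ι] [DecidableEq ι]

/-- both derivatives at once -/
noncomputable def Dg (s : ℂ) (a : ι) (f : (ι → ℂ) → ℂ) (z : ι → ℂ) : ℂ :=
  (fderiv ℝ f z (Pi.single a 1) + s * fderiv ℝ f z (Pi.single a Complex.I)) / 2

theorem wd_eq (a : ι) (f : (ι → ℂ) → ℂ) (z : ι → ℂ) : wd a f z = Dg (-Complex.I) a f z := by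
  unfold wd Dg
  ring

theorem wdb_eq (a : ι) (f : (ι → ℂ) → ℂ) (z : ι → ℂ) : wdb a f z = Dg Complex.I a f z := rfl

theorem Dg_congr (s : ℂ) (a : ι) {f g : (ι → ℂ) → ℂ} {z : ι → ℂ} (h : f =ᶠ[𝓝 z] g) :
    Dg s a f z = Dg s a g z := by
  unfold Dg
  rw [h.fderiv_eq]

theorem Dg_sum (s : ℂ) (a : ι) {κ : Type} (u : Finset κ) (F : κ → (ι → ℂ) → ℂ) (z : ι → ℂ)
    (h : ∀ i ∈ u, DifferentiableAt ℝ (F i) z) :
    Dg s a (fun w => ∑ i ∈ u, F i w) z = ∑ i ∈ u, Dg s a (F i) z := by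
  unfold Dg
  rw [fderiv_fun_sum h, ContinuousLinearMap.sum_apply, ContinuousLinearMap.sum_apply,
    Finset.mul_sum, ← Finset.sum_add_distrib, Finset.sum_div]

theorem Dg_cmul (s : ℂ) (a : ι) (c : ℂ) (f : (ι → ℂ) → ℂ) (z : ι → ℂ)
    (h : DifferentiableAt ℝ f z) : Dg s a (fun w => c * f w) z = c * Dg s a f z := by
  unfold Dg
  rw [fderiv_const_mul h c]
  simp only [ContinuousLinearMap.smul_apply, smul_eq_mul]
  ring

theorem Dg_mul (s : ℂ) (a : ι) (f g : (ι → ℂ) → ℂ) (z : ι → ℂ)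
    (hf : DifferentiableAt ℝ f z) (hg : DifferentiableAt ℝ g z) :
    Dg s a (fun w => f w * g w) z = f z * Dg s a g z + g z * Dg s a f z := by
  unfold Dg
  rw [fderiv_fun_mul hf hg]
  simp only [ContinuousLinearMap.add_apply, ContinuousLinearMap.smul_apply, smul_eq_mul]
  ring

theorem Dg_wedge (s : ℂ) (i : ι) {p : ℕ} (S : Form ι p) (H : (ι → ℂ) → Matrix ι ι ℂ)
    (z : ι → ℂ) (hS : ∀ I J, DifferentiableAt ℝ (fun w => S w I J) z)
    (hH : ∀ a b, DifferentiableAt ℝ (fun w => H w a b) z) (I J : Fin (p + 1) → ι) :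
    Dg s i (fun w => wedge (S w) (H w) I J) z = ((p + 1 : ℂ) ^ 2)⁻¹ *
      ∑ a : Fin (p + 1), ∑ b : Fin (p + 1), (-1 : ℂ) ^ ((a : ℕ) + (b : ℕ)) *
      (S z (I ∘ a.succAbove) (J ∘ b.succAbove) * Dg s i (fun w => H w (I a) (J b)) z +
        H z (I a) (J b) * Dg s i (fun w => S w (I ∘ a.succAbove) (J ∘ b.succAbove)) z) := by
  have hd : ∀ a b : Fin (p + 1), DifferentiableAt ℝ (fun w =>
      S w (I ∘ a.succAbove) (J ∘ b.succAbove) * H w (I a) (J b)) z := fun a b =>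
    (hS _ _).mul (hH _ _)
  have hd2 : ∀ a b : Fin (p + 1), DifferentiableAt ℝ (fun w =>
      (-1 : ℂ) ^ ((a : ℕ) + (b : ℕ)) *
        (S w (I ∘ a.succAbove) (J ∘ b.succAbove) * H w (I a) (J b))) z := fun a b =>
    (hd a b).const_mul _
  have e1 : (fun w => wedge (S w) (H w) I J) = fun w => ((p + 1 : ℂ) ^ 2)⁻¹ *
      ∑ a : Fin (p + 1), ∑ b : Fin (p + 1), (-1 : ℂ) ^ ((a : ℕ) + (b : ℕ)) *
        (S w (I ∘ a.succAbove) (J ∘ b.succAbove) * H w (I a) (J b)) := by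
    funext w
    unfold wedge
    refine congrArg (fun t : ℂ => ((p + 1 : ℂ) ^ 2)⁻¹ * t)
      (Finset.sum_congr rfl fun a _ => Finset.sum_congr rfl fun b _ => ?_)
    ring
  rw [e1, Dg_cmul s i _ _ z (DifferentiableAt.fun_sum fun a _ =>
    DifferentiableAt.fun_sum fun b _ => hd2 a b),
    Dg_sum s i _ _ z (fun a _ => DifferentiableAt.fun_sum fun b _ => hd2 a b)]
  refine congrArg (fun t : ℂ => ((p + 1 : ℂ) ^ 2)⁻¹ * t) (Finset.sum_congr rfl fun a _ => ?_)
  rw [Dg_sum s i _ _ z (fun b _ => hd2 a b)]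
  refine Finset.sum_congr rfl fun b _ => ?_
  rw [Dg_cmul s i _ _ z (hd a b), Dg_mul s i _ _ z (hS _ _) (hH _ _)]

end deriv

/-! ### The theorem -/

theorem pf_D3 (_h1 : T_W1) (h5 : T_W5) (h6 : T_W6) : T_D3 := by
  intro ι _ _ p U S f hU hS hf
  have hwdb : ∀ b, ContDiffOn ℝ ∞ (fun w => wdb b f w) U := fun b => (h6 ι b f U hU hf).2
  have hhess : ∀ a b, ContDiffOn ℝ ∞ (fun w => hess f w a b) U := fun a b =>
    (h6 ι a (fun w => wdb b f w) U hU (hwdb b)).1
  have hdiff : ∀ {g : (ι → ℂ) → ℂ} {z : ι → ℂ}, ContDiffOn ℝ ∞ g U → z ∈ U →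
      DifferentiableAt ℝ g z := by
    intro g z hg hz
    exact (hg.contDiffAt (hU.mem_nhds hz)).differentiableAt (by simp)
  have hc2 : ∀ {g : (ι → ℂ) → ℂ} {z : ι → ℂ}, ContDiffOn ℝ ∞ g U → z ∈ U →
      ContDiffAt ℝ 2 g z := by
    intro g z hg hz
    exact (hg.contDiffAt (hU.mem_nhds hz)).of_le (WithTop.coe_le_coe.2 le_top)
  refine ⟨?_, ?_, ?_, ?_, ?_⟩
  · -- smoothness
    intro I J
    unfold wedge
    apply ContDiffOn.mul contDiffOn_const
    apply ContDiffOn.sum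
    intro a _
    apply ContDiffOn.sum
    intro b _
    exact (contDiffOn_const.mul (hS.smooth _ _)).mul (hhess _ _)
  · -- alternating, left
    intro z hz π I J
    unfold wedge
    have e : ∀ K : Fin (p + 1) → ι, ∑ a : Fin (p + 1), ∑ b : Fin (p + 1),
        (-1 : ℂ) ^ ((a : ℕ) + (b : ℕ)) * S z (K ∘ a.succAbove) (J ∘ b.succAbove) *
          hess f z (K a) (J b) =
        ∑ b : Fin (p + 1), (-1 : ℂ) ^ (b : ℕ) * ∑ a : Fin (p + 1), (-1 : ℂ) ^ (a : ℕ) *
          (S z (K ∘ a.succAbove) (J ∘ b.succAbove) * hess f z (K a) (J b)) := by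
      intro K
      rw [Finset.sum_comm]
      refine Finset.sum_congr rfl fun b _ => ?_
      rw [Finset.mul_sum]
      refine Finset.sum_congr rfl fun a _ => ?_
      rw [pow_add]
      ring
    rw [e, e]
    have h1 : ∀ b : Fin (p + 1), ∑ a : Fin (p + 1), (-1 : ℂ) ^ (a : ℕ) *
        (S z ((I ∘ π) ∘ a.succAbove) (J ∘ b.succAbove) * hess f z ((I ∘ π) a) (J b)) =
        ((Equiv.Perm.sign π : ℤ) : ℂ) * ∑ a : Fin (p + 1), (-1 : ℂ) ^ (a : ℕ) *
        (S z (I ∘ a.succAbove) (J ∘ b.succAbove) * hess f z (I a) (J b)) := by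
      intro b
      exact alt_sum (fun x R => S z R (J ∘ b.succAbove) * hess f z x (J b))
        (fun x π' R => by rw [hS.altL z hz]; ring) I π
    simp only [h1]
    have h2 : ∑ b : Fin (p + 1), (-1 : ℂ) ^ (b : ℕ) * (((Equiv.Perm.sign π : ℤ) : ℂ) *
        ∑ a : Fin (p + 1), (-1 : ℂ) ^ (a : ℕ) *
          (S z (I ∘ a.succAbove) (J ∘ b.succAbove) * hess f z (I a) (J b))) =
        ((Equiv.Perm.sign π : ℤ) : ℂ) * ∑ b : Fin (p + 1), (-1 : ℂ) ^ (b : ℕ) *
        ∑ a : Fin (p + 1), (-1 : ℂ) ^ (a : ℕ) *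
          (S z (I ∘ a.succAbove) (J ∘ b.succAbove) * hess f z (I a) (J b)) := by
      rw [Finset.mul_sum]
      refine Finset.sum_congr rfl fun b _ => ?_
      ring
    rw [h2]
    ring
  · -- alternating, right
    intro z hz π I J
    unfold wedge
    have e : ∀ K : Fin (p + 1) → ι, ∑ a : Fin (p + 1), ∑ b : Fin (p + 1),
        (-1 : ℂ) ^ ((a : ℕ) + (b : ℕ)) * S z (I ∘ a.succAbove) (K ∘ b.succAbove) *
          hess f z (I a) (K b) =
        ∑ a : Fin (p + 1), (-1 : ℂ) ^ (a : ℕ) * ∑ b : Fin (p + 1), (-1 : ℂ) ^ (b : ℕ) *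
          (S z (I ∘ a.succAbove) (K ∘ b.succAbove) * hess f z (I a) (K b)) := by
      intro K
      refine Finset.sum_congr rfl fun a _ => ?_
      rw [Finset.mul_sum]
      refine Finset.sum_congr rfl fun b _ => ?_
      rw [pow_add]
      ring
    rw [e, e]
    have h1 : ∀ a : Fin (p + 1), ∑ b : Fin (p + 1), (-1 : ℂ) ^ (b : ℕ) *
        (S z (I ∘ a.succAbove) ((J ∘ π) ∘ b.succAbove) * hess f z (I a) ((J ∘ π) b)) =
        ((Equiv.Perm.sign π : ℤ) : ℂ) * ∑ b : Fin (p + 1), (-1 : ℂ) ^ (b : ℕ) *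
        (S z (I ∘ a.succAbove) (J ∘ b.succAbove) * hess f z (I a) (J b)) := by
      intro a
      exact alt_sum (fun x R => S z (I ∘ a.succAbove) R * hess f z (I a) x)
        (fun x π' R => by rw [hS.altR z hz]; ring) J π
    simp only [h1]
    have h2 : ∑ a : Fin (p + 1), (-1 : ℂ) ^ (a : ℕ) * (((Equiv.Perm.sign π : ℤ) : ℂ) *
        ∑ b : Fin (p + 1), (-1 : ℂ) ^ (b : ℕ) *
          (S z (I ∘ a.succAbove) (J ∘ b.succAbove) * hess f z (I a) (J b))) =
        ((Equiv.Perm.sign π : ℤ) : ℂ) * ∑ a : Fin (p + 1), (-1 : ℂ) ^ (a : ℕ) *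
        ∑ b : Fin (p + 1), (-1 : ℂ) ^ (b : ℕ) *
          (S z (I ∘ a.succAbove) (J ∘ b.succAbove) * hess f z (I a) (J b)) := by
      rw [Finset.mul_sum]
      refine Finset.sum_congr rfl fun b _ => ?_
      ring
    rw [h2]
    ring
  · -- closed, left
    intro z hz I J
    have hdS : ∀ I J, DifferentiableAt ℝ (fun w => S w I J) z := fun I J =>
      hdiff (hS.smooth I J) hz
    have hdH : ∀ a b, DifferentiableAt ℝ (fun w => hess f w a b) z := fun a b =>
      hdiff (hhess a b) hz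
    have hA : ∀ b : Fin (p + 1), ∑ j : Fin (p + 2), ∑ a : Fin (p + 1),
        (-1 : ℂ) ^ ((j : ℕ) + (a : ℕ)) *
        (S z ((I ∘ j.succAbove) ∘ a.succAbove) (J ∘ b.succAbove) *
          wd (I j) (fun w => hess f w (I (j.succAbove a)) (J b)) z) = 0 := by
      intro b
      refine sym_zero (fun x y R => S z R (J ∘ b.succAbove) *
        wd x (fun w => hess f w y (J b)) z) (fun x y R => ?_) I
      exact congrArg (fun t => S z R (J ∘ b.succAbove) * t)
        (h5 ι x y (fun w => wdb (J b) f w) z (hc2 (hwdb (J b)) hz)).1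
    have hB : ∀ b : Fin (p + 1), ∑ j : Fin (p + 2), ∑ a : Fin (p + 1),
        (-1 : ℂ) ^ ((j : ℕ) + (a : ℕ)) *
        (hess f z (I (j.succAbove a)) (J b) *
          wd (I j) (fun w => S w ((I ∘ j.succAbove) ∘ a.succAbove) (J ∘ b.succAbove)) z) =
          0 := by
      intro b
      exact closed_zero (fun x => hess f z x (J b))
        (fun x R => wd x (fun w => S w R (J ∘ b.succAbove)) z)
        (fun K => hS.closedL z hz K (J ∘ b.succAbove)) I
    have e : ∀ j : Fin (p + 2), (-1 : ℂ) ^ (j : ℕ) *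
        wd (I j) (fun w => wedge (S w) (hess f w) (I ∘ j.succAbove) J) z =
        ((p + 1 : ℂ) ^ 2)⁻¹ * ∑ b : Fin (p + 1), (-1 : ℂ) ^ (b : ℕ) *
        (∑ a : Fin (p + 1), (-1 : ℂ) ^ ((j : ℕ) + (a : ℕ)) *
          (S z ((I ∘ j.succAbove) ∘ a.succAbove) (J ∘ b.succAbove) *
            wd (I j) (fun w => hess f w (I (j.succAbove a)) (J b)) z) +
        ∑ a : Fin (p + 1), (-1 : ℂ) ^ ((j : ℕ) + (a : ℕ)) *
          (hess f z (I (j.succAbove a)) (J b) *
            wd (I j) (fun w => S w ((I ∘ j.succAbove) ∘ a.succAbove) (J ∘ b.succAbove)) z)) := by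
      intro j
      simp only [wd_eq]
      rw [Dg_wedge _ _ S (hess f) z hdS hdH, Finset.sum_comm, mul_left_comm, Finset.mul_sum]
      refine congrArg (fun t : ℂ => ((p + 1 : ℂ) ^ 2)⁻¹ * t)
        (Finset.sum_congr rfl fun b _ => ?_)
      rw [← Finset.sum_add_distrib, Finset.mul_sum, Finset.mul_sum]
      refine Finset.sum_congr rfl fun a _ => ?_
      rw [pow_add, pow_add]
      show _ = (-1 : ℂ) ^ (b : ℕ) * (_ * (_ * Dg _ _ (fun w => hess f w (I (j.succAbove a)) _) z) +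
        _ * (hess f z (I (j.succAbove a)) _ * _))
      simp only [Function.comp_apply]
      ring
    simp only [e]
    rw [← Finset.mul_sum, Finset.sum_comm]
    simp only [← Finset.mul_sum, Finset.sum_add_distrib, hA, hB, add_zero, mul_zero,
      Finset.sum_const_zero]
  · -- closed, right
    intro z hz I J
    have hdS : ∀ I J, DifferentiableAt ℝ (fun w => S w I J) z := fun I J =>
      hdiff (hS.smooth I J) hz
    have hdH : ∀ a b, DifferentiableAt ℝ (fun w => hess f w a b) z := fun a b =>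
      hdiff (hhess a b) hz
    have hwd : ∀ a, ContDiffOn ℝ ∞ (fun w => wd a f w) U := fun a => (h6 ι a f U hU hf).1
    have hsw : ∀ a b x, wdb x (fun w => hess f w a b) z =
        wdb x (fun w => wdb b (fun w => wd a f w) w) z := by
      intro a b x
      rw [wdb_eq, wdb_eq]
      apply Dg_congr
      filter_upwards [hU.mem_nhds hz] with w hw
      exact (h5 ι a b f w (hc2 hf hw)).2.2
    have hA : ∀ a : Fin (p + 1), ∑ j : Fin (p + 2), ∑ b : Fin (p + 1),
        (-1 : ℂ) ^ ((j : ℕ) + (b : ℕ)) *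
        (S z (I ∘ a.succAbove) ((J ∘ j.succAbove) ∘ b.succAbove) *
          wdb (J j) (fun w => hess f w (I a) (J (j.succAbove b))) z) = 0 := by
      intro a
      refine sym_zero (fun x y R => S z (I ∘ a.succAbove) R *
        wdb x (fun w => hess f w (I a) y) z) (fun x y R => ?_) J
      show S z (I ∘ a.succAbove) R * wdb x (fun w => hess f w (I a) y) z =
        S z (I ∘ a.succAbove) R * wdb y (fun w => hess f w (I a) x) z
      rw [hsw, hsw, (h5 ι x y (fun w => wd (I a) f w) z (hc2 (hwd (I a)) hz)).2.1]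
    have hB : ∀ a : Fin (p + 1), ∑ j : Fin (p + 2), ∑ b : Fin (p + 1),
        (-1 : ℂ) ^ ((j : ℕ) + (b : ℕ)) *
        (hess f z (I a) (J (j.succAbove b)) *
          wdb (J j) (fun w => S w (I ∘ a.succAbove) ((J ∘ j.succAbove) ∘ b.succAbove)) z) =
          0 := by
      intro a
      exact closed_zero (fun x => hess f z (I a) x)
        (fun x R => wdb x (fun w => S w (I ∘ a.succAbove) R) z)
        (fun K => hS.closedR z hz (I ∘ a.succAbove) K) J
    have e : ∀ j : Fin (p + 2), (-1 : ℂ) ^ (j : ℕ) *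
        wdb (J j) (fun w => wedge (S w) (hess f w) I (J ∘ j.succAbove)) z =
        ((p + 1 : ℂ) ^ 2)⁻¹ * ∑ a : Fin (p + 1), (-1 : ℂ) ^ (a : ℕ) *
        (∑ b : Fin (p + 1), (-1 : ℂ) ^ ((j : ℕ) + (b : ℕ)) *
          (S z (I ∘ a.succAbove) ((J ∘ j.succAbove) ∘ b.succAbove) *
            wdb (J j) (fun w => hess f w (I a) (J (j.succAbove b))) z) +
        ∑ b : Fin (p + 1), (-1 : ℂ) ^ ((j : ℕ) + (b : ℕ)) *
          (hess f z (I a) (J (j.succAbove b)) *
            wdb (J j) (fun w => S w (I ∘ a.succAbove) ((J ∘ j.succAbove) ∘ b.succAbove)) z)) := by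
      intro j
      simp only [wdb_eq]
      rw [Dg_wedge _ _ S (hess f) z hdS hdH, mul_left_comm, Finset.mul_sum]
      refine congrArg (fun t : ℂ => ((p + 1 : ℂ) ^ 2)⁻¹ * t)
        (Finset.sum_congr rfl fun a _ => ?_)
      rw [← Finset.sum_add_distrib, Finset.mul_sum, Finset.mul_sum]
      refine Finset.sum_congr rfl fun b _ => ?_
      rw [pow_add, pow_add]
      simp only [Function.comp_apply]
      ring
    simp only [e]
    rw [← Finset.mul_sum, Finset.sum_comm]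
    simp only [← Finset.mul_sum, Finset.sum_add_distrib, hA, hB, add_zero, mul_zero,
      Finset.sum_const_zero]

end Pool.Agent.H73.EQ
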